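import Pool.Agent.H780.RP.Vol
import Pool.Agent.Results.MP_07cd05_gt.ConvexSphericalRegions

/-!
# The systolic inequality on real projective space: the case of equality for metrics which are round
outside a ball

Let `n = d + 1 ≥ 3`.  Let `V` be a closed manifold which outside a domain `K` is isometric to the round
projective space `RPⁿ` without an open ball of radius `ρ`, with `sin ρ` admissible (61.6 degrees for
`n = 3`; the diameter of `RPⁿ` is 90 degrees); `K` is an arbitrary oriented Riemannian manifold with
boundary a sphere, for `V = RPⁿ` a ball with any metric.  Suppose that the closed curves of `V` which do not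
lift to closed curves of the double cover have length at least `π`.  The library proves that the volume
of `V` is at least that of the round `RPⁿ`.  Here it is proved that equality holds only for the round
metric: then `K` is isometric to the ball of radius `ρ`, by an isometry which is the given one on the
boundary.

As in the theorem NearVolume only the part of `K` at distance less than `ρ` from its boundary has to be
an oriented manifold, and only its volume is taken; the rest of `K` may be arbitrary.

Proof.  For two points `x`, `y` of the boundary of the ball the great circle through them leaves the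
ball, and its part outside the ball is an arc of length `π - d(x, y)` from `y` to `-x`.  So the distances
in `K` of the boundary points are at least those of the round cap (`cap_le`), and the theorem
ConvexSphericalRegions on the boundary rigidity of convex regions of the sphere applies to the cap.
-/

set_option autoImplicit false

open MeasureTheory Metric Set

namespace Pool.Agent.Results.MP_b75b84_gt.EqualityOutsideBall

open Pool.Agent.H241R3.FV Pool.Agent.N526.CP Pool.Agent.N979.CP Pool.Agent.H780.NV
open Pool.Agent.H780.RP
open Pool.Agent.Results.MP_aeade1_gt.RoundRegions (Adm)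

/-- Any two points of `K` are joined by a shortest path, in the form: there are points at all
intermediate distances from them. -/
def Geodesic (K : Type) [MetricSpace K] : Prop :=
  ∀ (q q' : K) (t : ℝ), 0 ≤ t → t ≤ dist q q' → ∃ p, dist q p = t ∧ dist p q' = dist q q' - t

/-- The volume of the round projective space `RP^(d+1)`, half the volume of the sphere. -/
noncomputable def projVol (d : ℕ) : ENNReal := (volume : Measure (E (d + 2))).toSphere univ / 2

/-- `Φ` maps the round ball of radius `ρ`, given by orthogonal projection to the ball of radius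
`sin ρ`, isometrically to `K`, and the boundary as prescribed. -/
structure IsoBall {d : ℕ} {K : Type} [MetricSpace K] (bd : Sph (d + 1) → K) (ρ : ℝ)
    (Φ : E (d + 1) → K) : Prop where
  iso : ∀ y ∈ closedBall (0 : E (d + 1)) (Real.sin ρ),
    ∀ z ∈ closedBall (0 : E (d + 1)) (Real.sin ρ), dist (Φ y) (Φ z) = hdist y z
  bdv : ∀ x : Sph (d + 1), Φ (Real.sin ρ • (x : E (d + 1))) = bd x

/-- `Φ` maps the punctured ball to the set `A`, and `A` is contained in the image of the ball. -/
def Covers {d : ℕ} {K : Type} (A : Set K) (ρ : ℝ) (Φ : E (d + 1) → K) : Prop :=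
  A ⊆ Φ '' closedBall 0 (Real.sin ρ) ∧ Φ '' (closedBall 0 (Real.sin ρ) \ {0}) ⊆ A

/-- Let `n = d + 1 ≥ 3`, `0 < ρ < π/2`, and let `sin ρ` be admissible.  Let `K` be a metric space with
compact closed balls, and let the subset `N` of `K` be an oriented Riemannian manifold with boundary
`bd : S^d → K` (`N = K` if `K` is a compact oriented manifold), which contains the points at distance less
than `ρ` from the boundary.  Let `V` (given by a double cover `X` with deck transformation `τ`) be round,
isometric to `RPⁿ` without a ball of radius `ρ`, outside `K`, and suppose that `d(p, τ p) ≥ π` for all `p`.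
(1) The volume of the set of the points of `K` at distance less than `ρ` from the boundary plus the volume
of the round part is at least the volume `vol(Sⁿ)/2` of the round `RPⁿ`.
(2) If they are equal and shortest paths exist in `K`, then there is an isometric map `Φ` of the round
ball of radius `ρ` (given by orthogonal projection to the ball of radius `sin ρ`, with the spherical
distance `hdist`) to `K` which is the identification of the boundaries on the boundary; its image
contains the set of the points at distance less than `ρ` from the boundary, the punctured ball is mapped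
to this set, and if `N = K`, then `Φ` is onto. -/
theorem result (d : ℕ) (hd : 2 ≤ d) (ρ : ℝ) (h0 : 0 < ρ) (h1 : ρ < Real.pi / 2)
    (hs : Adm d (Real.sin ρ)) (K : Type) [MetricSpace K] [ProperSpace K] (bd : Sph (d + 1) → K)
    (N : Set K) (S : NFill (d + 1) K bd N) (hN : (near bd fun _ => ρ) ⊆ N) (X : Type)
    [MetricSpace X] (τ : X → X) (V : RoundOutside bd ρ X τ)
    (hsys : ∀ p : X, Real.pi ≤ dist p (τ p)) :
    projVol d ≤ S.part (near bd fun _ => ρ) + collarVol d ρ ∧
    (Geodesic K → S.part (near bd fun _ => ρ) + collarVol d ρ = projVol d →
      ∃ Φ : E (d + 1) → K, IsoBall bd ρ Φ ∧ Covers (near bd fun _ => ρ) ρ Φ ∧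
        (N = univ → Φ '' closedBall 0 (Real.sin ρ) = univ)) := by
  have hs0 : 0 < Real.sin ρ := Real.sin_pos_of_pos_of_lt_pi h0 (by linarith [Real.pi_pos])
  have hc0 : 0 < Real.cos ρ := Real.cos_pos_of_mem_Ioo ⟨by linarith, h1⟩
  have hs1 : Real.sin ρ < 1 := by
    have h3 := Real.cos_sq_add_sin_sq ρ
    nlinarith
  have hcap := cap_le h0 h1 V hsys
  have e1 : (fun y : E (d + 1) => Real.sin ρ • y) '' closedBall 0 1 =
      closedBall 0 (Real.sin ρ) := by
    rw [image_smul, smul_unitClosedBall_of_nonneg hs0.le]
  have e2 : (fun y : E (d + 1) => Real.sin ρ • y) '' ball 0 1 = ball 0 (Real.sin ρ) := by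
    rw [image_smul, smul_unitBall_of_pos hs0]
  have hpv : projVol d = capVol d ρ + collarVol d ρ := cap_add_collar d h0 h1
  rw [hpv]
  constructor
  · exact add_le_add (((MP_aeade1_gt.NearVolume.result d (by omega) (Real.sin ρ) hs0 hs K bd N
      S).2 ρ h0 h1 rfl hN).1 hcap) le_rfl
  · intro hK hV
    have hcol : collarVol d ρ ≠ ⊤ := ENNReal.ofReal_ne_top
    have hV' : S.part (near bd fun _ => ρ) = capVol d ρ := (ENNReal.add_left_inj hcol).1 hV
    have hreg := creg_ball (n := d + 1) hs0 hs1
    have hdom : MP_aeade1_gt.NearVolume.Dominates bd (Real.sin ρ)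
        (fun y : E (d + 1) => Real.sin ρ • y) (fun _ => ρ) := by
      refine ⟨⟨Real.toNNReal (Real.sin ρ), ?_⟩, fun y hy => ?_, fun x y => ?_, fun x => ⟨h0, ?_⟩,
        ρ, fun _ => le_rfl⟩
      · refine (LipschitzWith.of_dist_le_mul fun a b => ?_).lipschitzOnWith
        rw [dist_smul₀, Real.coe_toNNReal _ hs0.le, Real.norm_of_nonneg hs0.le]
      · rw [mem_closedBall_zero_iff] at hy
        rw [norm_smul, Real.norm_of_nonneg hs0.le]
        nlinarith
      · rw [hdist_cap h0 h1]
        exact hcap x y
      · rw [norm_smul, norm_sph, mul_one, Real.norm_of_nonneg hs0.le,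
          Real.arcsin_sin (by linarith) h1.le]
    have hdet : ∀ᵐ y ∂(volume.restrict (ball (0 : E (d + 1)) 1)),
        0 ≤ (fderiv ℝ (fun y : E (d + 1) => Real.sin ρ • y) y).det := by
      refine Filter.Eventually.of_forall fun y => ?_
      have h3 : fderiv ℝ (fun y : E (d + 1) => Real.sin ρ • y) y =
          Real.sin ρ • ContinuousLinearMap.id ℝ (E (d + 1)) := by
        exact (((hasFDerivAt_id y).const_smul (Real.sin ρ))).fderiv
      rw [h3]
      show 0 ≤ LinearMap.det ((Real.sin ρ • ContinuousLinearMap.id ℝ (E (d + 1)) :
        E (d + 1) →L[ℝ] E (d + 1)) : E (d + 1) →ₗ[ℝ] E (d + 1))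
      rw [ContinuousLinearMap.toLinearMap_smul, LinearMap.det_smul]
      refine mul_nonneg (pow_nonneg hs0.le _) ?_
      rw [ContinuousLinearMap.coe_id, LinearMap.det_id]
      exact zero_le_one
    have h := MP_07cd05_gt.ConvexSphericalRegions.result d hd (Real.sin ρ) hs0 hs K hK bd N S
      (fun y : E (d + 1) => Real.sin ρ • y) (fun _ => ρ) hdom ⟨hreg.inj, hreg.int, hreg.convex⟩
      hdet hN (by
        rw [hV', ← ball_vol d h0 h1, e2]
        exact le_rfl)
    rw [e1] at h
    obtain ⟨Φ, f1, f2, f3, f4, f5⟩ := h
    exact ⟨Φ, ⟨f1, f2⟩, ⟨f3, f4⟩, f5⟩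

end Pool.Agent.Results.MP_b75b84_gt.EqualityOutsideBall
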