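import Pool.Agent.H804.RP.Fin
import Pool.Agent.H804.OP.Ex

/-!
# The standard metric is the only systolically optimal metric with Hopf symmetry on `ℝP^N`

`IsProfileRP L f h`: `dr² + f(r)² g_V + h(r)² g_H`, `0 ≤ r ≤ L`, is a smooth metric on `S^N` invariant under
the antipodal map, i.e. a metric on `ℝP^N`, where `g_V` and `g_H` are the restrictions of the round metric of
`S^{N-1}` to the tangent spaces of the fibres of a Hopf fibration and to their orthogonal complements: the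
complex one (`N = 2 n`), the quaternionic one (`N = 4 n`) or the octonionic one (`N = 16`).
`IsGeodesicUS`, `IsGeodesicHS`, `IsGeodesicOS`: geodesics of speed `v` of these metrics on `S^N`.  The unit
speed geodesics with `γ(t + T) = -γ(t)` are the non-contractible closed geodesics of `ℝP^N` of length `T`; the
systole is the least `T`.  The volume of `ℝP^N` is `c ∫_0^L f^a h^{N-1-a}`, `a = 1, 3, 7`, and that of the
standard metric `g₀` (`L = π`, `f = h = sin`), whose systole is `π`, is `c ∫_0^π sin^{N-1}`, with the same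
`c`.  So if the non-contractible closed geodesics have length at least `ℓ`, then
`vol(g) / ℓ^N ≥ vol(g₀) / π^N`, with equality if and only if `g = (ℓ / π)² g₀`.
-/

open Real Set MeasureTheory Quaternion

namespace Pool.Agent.Results.MP_b75b84_gt.HopfProjectiveRigidity

open H738CP H804OP H804US H804RP
open H804RP.Fin (IsRound)

theorem result :
    (∀ (L : ℝ) (f h : ℝ → ℝ), IsProfileRP L f h → ∀ ℓ : ℝ, 0 < ℓ →
      -- `U(n)`-invariant metrics on `ℝP^{2n}`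
      (∀ n : ℕ, 2 ≤ n →
        (∀ (γ : ℝ → EuclideanSpace ℂ (Fin n) × ℝ) (T : ℝ), 0 < T →
          IsGeodesicUS L f h 1 γ → (∀ t, γ (t + T) = -γ t) → ℓ ≤ T) →
        ℓ ^ (2 * n) * (∫ t in (0 : ℝ)..π, Real.sin t ^ (2 * n - 1)) ≤
          π ^ (2 * n) * (∫ r in (0 : ℝ)..L, f r * h r ^ (2 * n - 2)) ∧
        (π ^ (2 * n) * (∫ r in (0 : ℝ)..L, f r * h r ^ (2 * n - 2)) =
          ℓ ^ (2 * n) * (∫ t in (0 : ℝ)..π, Real.sin t ^ (2 * n - 1)) ↔ IsRound ℓ L f h)) ∧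
      -- `Sp(n)Sp(1)`-invariant metrics on `ℝP^{4n}`
      (∀ n : ℕ, 2 ≤ n →
        (∀ (γ : ℝ → (Fin n → ℍ[ℝ]) × ℝ) (T : ℝ), 0 < T →
          IsGeodesicHS L f h 1 γ → (∀ t, γ (t + T) = -γ t) → ℓ ≤ T) →
        ℓ ^ (4 * n) * (∫ t in (0 : ℝ)..π, Real.sin t ^ (4 * n - 1)) ≤
          π ^ (4 * n) * (∫ r in (0 : ℝ)..L, f r ^ 3 * h r ^ (4 * n - 4)) ∧
        (π ^ (4 * n) * (∫ r in (0 : ℝ)..L, f r ^ 3 * h r ^ (4 * n - 4)) =
          ℓ ^ (4 * n) * (∫ t in (0 : ℝ)..π, Real.sin t ^ (4 * n - 1)) ↔ IsRound ℓ L f h)) ∧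
      -- `Spin(9)`-invariant metrics on `ℝP^16`
      (∀ A : Fin 9 → E16 →L[ℝ] E16, IsClifford A →
        (∀ (γ : ℝ → E16 × ℝ) (T : ℝ), 0 < T →
          IsGeodesicOS A L f h 1 γ → (∀ t, γ (t + T) = -γ t) → ℓ ≤ T) →
        ℓ ^ 16 * (∫ t in (0 : ℝ)..π, Real.sin t ^ 15) ≤
          π ^ 16 * (∫ r in (0 : ℝ)..L, f r ^ 7 * h r ^ 8) ∧
        (π ^ 16 * (∫ r in (0 : ℝ)..L, f r ^ 7 * h r ^ 8) =
          ℓ ^ 16 * (∫ t in (0 : ℝ)..π, Real.sin t ^ 15) ↔ IsRound ℓ L f h))) ∧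
    -- the standard metric: all non-contractible closed geodesics have length at least `π`
    (∃ A : Fin 9 → E16 →L[ℝ] E16, IsClifford A) ∧
    IsProfileRP π Real.sin Real.sin ∧
    (∀ (n : ℕ) (γ : ℝ → EuclideanSpace ℂ (Fin n) × ℝ) (T : ℝ), 0 < T →
      IsGeodesicUS π Real.sin Real.sin 1 γ → (∀ t, γ (t + T) = -γ t) → π ≤ T) ∧
    (∀ (n : ℕ) (γ : ℝ → (Fin n → ℍ[ℝ]) × ℝ) (T : ℝ), 0 < T →
      IsGeodesicHS π Real.sin Real.sin 1 γ → (∀ t, γ (t + T) = -γ t) → π ≤ T) ∧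
    (∀ (A : Fin 9 → E16 →L[ℝ] E16) (γ : ℝ → E16 × ℝ) (T : ℝ), 0 < T →
      IsGeodesicOS A π Real.sin Real.sin 1 γ → (∀ t, γ (t + T) = -γ t) → π ≤ T) := by
  refine ⟨fun L f h hf ℓ hl => ⟨fun n hn hge => Fin.main_US hf hn hl hge,
      fun n hn hge => Fin.main_HS hf hn hl hge, fun A hA hge => Fin.main_OS hA hf hl hge⟩,
    Ex.exists_clifford, Low.profile_round,
    fun n γ T hT hγ hper => ?_, fun n γ T hT hγ hper => ?_, fun A γ T hT hγ hper => ?_⟩
  · have := H804RP.Low.low_US one_pos hT hγ (Or.inl hper)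
    linarith
  · have := H804RP.Low.low_HS one_pos hT hγ (Or.inl hper)
    linarith
  · have := H804RP.Low.low_OS one_pos hT hγ (Or.inl hper)
    linarith

end Pool.Agent.Results.MP_b75b84_gt.HopfProjectiveRigidity
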