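import Pool.Agent.H780.RP.Vol
import Pool.Agent.H780.HG.Min
import Pool.Agent.H780.HG.GLU
import Pool.Agent.H780.HG.HLEN
import Pool.Agent.H780.HG.FILLG
import Pool.Agent.H780.HG.HEP
import Pool.Agent.H780.HG.GRET
import Pool.Agent.H780.HG.GEO

/-!
# The systolic inequality for metrics on real projective space which are round near a hyperplane, in
high dimensions

Let `0 < R < π/2`.  There is a number `n₀`, depending only on `R`, with `n₀ = 2` if `sin² R ≤ 5/41`, such
that for `n ≥ n₀` and `ρ < R` the following holds.  Let `V` be a closed manifold which outside a domain `K`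
is isometric to the round projective space `RPⁿ` without an open ball of radius `ρ`, that is, to a
neighbourhood of width `π/2 - ρ` of a hyperplane `RPⁿ⁻¹`; `K` is an arbitrary Riemannian manifold with
boundary a sphere, orientable or not, for `V = RPⁿ` a ball with any metric.  Suppose that the closed
curves of `V` which do not lift to closed curves of the double cover have length at least `π`.  Then the
volume of `V` is at least that of the round `RPⁿ`, with equality only for the round metric.

So for every `ε > 0` there is `n₀(ε)` such that in all dimensions `n ≥ n₀(ε)` the metrics on `RPⁿ` which are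
round in a neighbourhood of width `ε` of a hyperplane satisfy the optimal systolic inequality, with
equality only for the round metric.  The library has this, without the case of equality and for `K`
orientable, for an explicit range of radii which tend to zero as the dimension grows.

Proof.  For two points `x`, `y` of the boundary of the ball the great circle through them leaves the
ball, and its part outside the ball is an arc of length `π - d(x, y)` from `y` to `-x`.  So the distances
in `K` of the boundary points are at least those of the round ball of radius `ρ` (`cap_le`), and the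
theorems on minimality (`HG.Min`) and rigidity (`HG.Asm`) of convex regions of balls of radius `R` in
high dimensions apply.
-/

set_option autoImplicit false

open MeasureTheory Metric Set

namespace Pool.Agent.Results.MP_b75b84_gt.RoundNearHyperplane

open Pool.Agent.H241R3.FV Pool.Agent.N526.CP Pool.Agent.H780.RP

/-- Any two points of `K` are joined by a shortest path, in the form: there are points at all
intermediate distances from them. -/
def Geodesic (K : Type) [MetricSpace K] : Prop :=
  ∀ (q q' : K) (t : ℝ), 0 ≤ t → t ≤ dist q q' → ∃ p, dist q p = t ∧ dist p q' = dist q q' - t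

/-- Properties of the charts and of the boundary, which hold for Riemannian manifolds with compact
boundary: the boundary sphere is Lipschitz, the parts `D` of the charts do not meet the boundary,
and every nonempty open set contains a set of positive measure of the part `D` of a chart. -/
structure Regular {d : ℕ} {K : Type} [MetricSpace K] (S : Fill d K) : Prop where
  lip : ∃ L : NNReal, LipschitzWith L S.bd
  off : ∀ k, ∀ p ∈ (S.chart k).D, (S.chart k).map p ∉ range S.bd
  supp : ∀ W : Set K, IsOpen W → W.Nonempty →
    ∃ k, volume {x | x ∈ (S.chart k).D ∧ (S.chart k).map x ∈ W} ≠ 0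

/-- The volume of the round projective space `RP^(d+1)`, half the volume of the sphere. -/
noncomputable def projVol (d : ℕ) : ENNReal := (volume : Measure (E (d + 2))).toSphere univ / 2

/-- `Φ` is an isometry of the round ball of radius `ρ`, given by orthogonal projection to the ball of
radius `sin ρ`, onto `K`, which maps the boundary as prescribed. -/
structure IsoBall {d : ℕ} {K : Type} [MetricSpace K] (bd : Sph (d + 1) → K) (ρ : ℝ)
    (Φ : E (d + 1) → K) : Prop where
  iso : ∀ y ∈ closedBall (0 : E (d + 1)) (Real.sin ρ),
    ∀ z ∈ closedBall (0 : E (d + 1)) (Real.sin ρ), dist (Φ y) (Φ z) = hdist y z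
  bdv : ∀ x : Sph (d + 1), Φ (Real.sin ρ • (x : E (d + 1))) = bd x
  onto : Φ '' closedBall 0 (Real.sin ρ) = univ

/-- The conclusion for `K`: the inequality for the volume of the union of `K` and of the round part, and
the case of equality. -/
def Optimal {d : ℕ} {K : Type} [MetricSpace K] (S : Fill d K) (ρ : ℝ) : Prop :=
  projVol d ≤ S.vol + collarVol d ρ ∧
  (ProperSpace K → Geodesic K → S.vol + collarVol d ρ = projVol d →
    ∃ Φ : E (d + 1) → K, IsoBall S.bd ρ Φ)

/-- Let `0 < R < π/2`.  There is `n₀` (with `n₀ = 2` if `sin² R ≤ 5/41`) such that for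
`n = d + 1 ≥ max (n₀, 2)` and `0 < ρ < R` the following holds.  Let `K` be a metric space with countably
many Riemannian charts of dimension `n` and with boundary sphere `S.bd : S^d → K`, onto which `K` does not
retract.  Let `V` (given by a double cover `X` with deck transformation `τ`) be round, isometric to `RPⁿ`
without a ball of radius `ρ`, outside `K`, and suppose that `d(p, τ p) ≥ π` for all `p`.
(1) The volume of `K` plus the volume of the round part is at least the volume `vol(Sⁿ)/2` of the round
`RPⁿ`.
(2) If they are equal, closed balls of `K` are compact and shortest paths exist in `K`, then there is an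
isometry `Φ` of the round ball of radius `ρ` (given by orthogonal projection to the ball of radius
`sin ρ`, with the spherical distance `hdist`) onto `K` which is the identification of the boundaries on
the boundary. -/
theorem result (R : ℝ) (hR0 : 0 < R) (hR1 : R < Real.pi / 2) :
    ∃ n₀ : ℕ, (Real.sin R ^ 2 ≤ 5 / 41 → n₀ = 2) ∧ ∀ d : ℕ, 1 ≤ d → n₀ ≤ d + 1 →
    ∀ (K : Type) [MetricSpace K] (S : Fill d K) (_ : S.NoRetraction) (_ : Regular S)
      (ρ : ℝ) (_ : 0 < ρ) (_ : ρ < R) (X : Type) [MetricSpace X] (τ : X → X)
      (_ : RoundOutside S.bd ρ X τ) (_ : ∀ p : X, Real.pi ≤ dist p (τ p)),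
      Optimal S ρ := by
  obtain ⟨d₀, hd₀, h⟩ := H780.HG.Asm.final H780.HG.GLU.main (H780.HG.FILLG.main H780.HG.HLEN.main)
    H780.HG.HEP.main H780.HG.GRET.main (H780.HG.GEO.main H780.RG.SPA.main
    (H780.RG.SPB.main H780.RG.SPC.main) H780.RG.SPC.main) H780.HG.CORA.main
    (H780.RG.RIGI.main H780.RG.SPA.main H780.RG.SPC.main) R hR0 hR1
  obtain ⟨d₁, hd₁, h'⟩ := H780.HG.Min.minimal H780.HG.GLU.main
    (H780.HG.FILLG.main H780.HG.HLEN.main) H780.HG.HEP.main H780.HG.GRET.main R hR0 hR1
  refine ⟨max (max (d₀ + 1) (d₁ + 1)) 2, fun h2 => by rw [hd₀ h2, hd₁ h2]; rfl,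
    fun d hd1 hd K _ S hnr hS ρ h0 hρ X _ τ V hsys => ?_⟩
  have hd₀' : d₀ ≤ d := by
    have e1 := le_max_left (max (d₀ + 1) (d₁ + 1)) 2
    have e2 := le_max_left (d₀ + 1) (d₁ + 1)
    omega
  have hd₁' : d₁ ≤ d := by
    have e1 := le_max_left (max (d₀ + 1) (d₁ + 1)) 2
    have e2 := le_max_right (d₀ + 1) (d₁ + 1)
    omega
  have h1 : ρ < Real.pi / 2 := hρ.trans hR1
  have hs0 : 0 < Real.sin ρ := Real.sin_pos_of_pos_of_lt_pi h0 (by linarith [Real.pi_pos])
  have hc0 : 0 < Real.cos ρ := Real.cos_pos_of_mem_Ioo ⟨by linarith, h1⟩
  have hs1 : Real.sin ρ < 1 := by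
    have h3 := Real.cos_sq_add_sin_sq ρ
    nlinarith
  have hsR : Real.sin ρ < Real.sin R :=
    Real.strictMonoOn_sin ⟨by linarith, h1.le⟩ ⟨by linarith, hR1.le⟩ hρ
  have e1 : (fun y : E (d + 1) => Real.sin ρ • y) '' closedBall 0 1 =
      closedBall 0 (Real.sin ρ) := by
    rw [image_smul, smul_unitClosedBall_of_nonneg hs0.le]
  have e2 : (fun y : E (d + 1) => Real.sin ρ • y) '' ball 0 1 = ball 0 (Real.sin ρ) := by
    rw [image_smul, smul_unitBall_of_pos hs0]
  have hreg := creg_ball (n := d + 1) hs0 hs1
  have hlt : ∀ y ∈ closedBall (0 : E (d + 1)) 1, ‖Real.sin ρ • y‖ < Real.sin R := by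
    intro y hy
    rw [mem_closedBall_zero_iff] at hy
    rw [norm_smul, Real.norm_of_nonneg hs0.le]
    nlinarith [norm_nonneg y]
  have hdist : ∀ x y : Sph (d + 1), hdist (Real.sin ρ • (x : E (d + 1)))
      (Real.sin ρ • (y : E (d + 1))) ≤ dist (S.bd x) (S.bd y) := by
    intro x y
    rw [hdist_cap h0 h1]
    exact cap_le h0 h1 V hsys x y
  obtain ⟨L, hL⟩ := hS.lip
  have hpv : projVol d = capVol d ρ + collarVol d ρ := cap_add_collar d h0 h1
  unfold Optimal
  rw [hpv]
  constructor
  · have h3 := h' d hd₁' K S hnr L hL hS.supp (fun y : E (d + 1) => Real.sin ρ • y) hreg hlt hdist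
    rw [e2, ball_vol d h0 h1] at h3
    exact add_le_add h3 le_rfl
  · intro hK hgeo hV
    have hcol : collarVol d ρ ≠ ⊤ := ENNReal.ofReal_ne_top
    have hV' : S.vol = capVol d ρ := (ENNReal.add_left_inj hcol).1 hV
    have h4 := h d hd₀' hd1 K hgeo S hnr L hL hS.supp hS.off
      (fun y : E (d + 1) => Real.sin ρ • y) hreg hlt hdist (by
        rw [hV', ← ball_vol d h0 h1, e2])
    rw [e1] at h4
    obtain ⟨Φ, f1, f2, f3⟩ := h4
    exact ⟨Φ, f1, f2, f3⟩

end Pool.Agent.Results.MP_b75b84_gt.RoundNearHyperplane
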